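import Pool.Agent.MP_1246c0_nt.H12.SpecN

/-! The main term: the top prime is added to a good configuration. -/

namespace Pool.Agent.MP_1246c0_nt.H12

open Finset Filter

namespace MAIN

theorem sum_le_of_inj {α β : Type} (s : Finset α) (t : Finset β) (φ : α → β) (f : α → ℝ)
    (g : β → ℝ) (hinj : Set.InjOn φ s) (hm : ∀ x ∈ s, φ x ∈ t) (hf : ∀ x ∈ s, f x ≤ g (φ x))
    (hg : ∀ y ∈ t, 0 ≤ g y) : ∑ x ∈ s, f x ≤ ∑ y ∈ t, g y := by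
  classical
  refine (sum_le_sum hf).trans ?_
  rw [← sum_image hinj]
  exact sum_le_sum_of_subset_of_nonneg (image_subset_iff.2 hm) fun y hy _ => hg y hy

theorem ind_nonneg (p : Prop) : 0 ≤ ind p := by
  unfold ind
  split_ifs <;> norm_num

theorem ps_sigma (U : Finset ℕ) (a b : ℕ → ℝ) (F : Finset ℕ → Finset ℕ → ℝ) :
    PS U a b F = ∑ x ∈ U.powerset.sigma fun Sg => (U \ Sg).powerset,
      (∏ p ∈ x.1, a p) * (∏ p ∈ x.2, b p) * F x.1 x.2 :=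
  sum_sigma' _ _ _

theorem ps_nonneg (U : Finset ℕ) {a b : ℕ → ℝ} (ha : ∀ p, 0 ≤ a p) (hb : ∀ p, 0 ≤ b p)
    (G : Finset ℕ → Finset ℕ → Prop) : 0 ≤ PS U a b fun Sg B => ind (G Sg B) :=
  sum_nonneg fun _ _ => sum_nonneg fun _ _ => mul_nonneg
    (mul_nonneg (prod_nonneg fun p _ => ha p) (prod_nonneg fun p _ => hb p)) (ind_nonneg _)

theorem ps_insert (U U' T : Finset ℕ) {a b : ℕ → ℝ} (ha : ∀ p, 0 ≤ a p) (hb : ∀ p, 0 ≤ b p)
    (G G' : Finset ℕ → Finset ℕ → Prop) (hd : ∀ q ∈ T, q ∉ U)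
    (h : ∀ Sg ⊆ U, ∀ B ⊆ U \ Sg, ∀ q ∈ T, G Sg B →
      Sg ⊆ U' ∧ insert q B ⊆ U' \ Sg ∧ G' Sg (insert q B)) :
    (PS U a b fun Sg B => ind (G Sg B)) * ∑ q ∈ T, b q ≤ PS U' a b fun Sg B => ind (G' Sg B) := by
  classical
  have e : (PS U a b fun Sg B => ind (G Sg B)) =
      ∑ x ∈ (U.powerset.sigma fun Sg => (U \ Sg).powerset).filter fun x => G x.1 x.2,
        (∏ p ∈ x.1, a p) * ∏ p ∈ x.2, b p := by
    rw [ps_sigma, sum_filter]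
    refine sum_congr rfl fun x _ => ?_
    by_cases hx : G x.1 x.2 <;> simp [ind, hx]
  rw [e, ps_sigma, sum_mul_sum, ← sum_product']
  have hmem : ∀ x ∈ ((U.powerset.sigma fun Sg => (U \ Sg).powerset).filter
      fun x => G x.1 x.2) ×ˢ T, x.1.1 ⊆ U ∧ x.1.2 ⊆ U \ x.1.1 ∧ x.2 ∈ T ∧ G x.1.1 x.1.2 := by
    intro x hx
    simp only [mem_product, mem_filter, mem_sigma, mem_powerset] at hx
    exact ⟨hx.1.1.1, hx.1.1.2, hx.2, hx.1.2⟩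
  have hnot : ∀ Sg B : Finset ℕ, B ⊆ U \ Sg → ∀ q ∈ T, q ∉ B := fun Sg B hB q hq hqB =>
    hd q hq (mem_sdiff.1 (hB hqB)).1
  refine sum_le_of_inj _ _ (fun x => ⟨x.1.1, insert x.2 x.1.2⟩) _ _ ?_ ?_ ?_ ?_
  · rintro ⟨⟨S, B⟩, q⟩ hx ⟨⟨S', B'⟩, q'⟩ hx' he
    obtain ⟨-, h2, h3, -⟩ := hmem _ hx
    obtain ⟨-, h2', h3', -⟩ := hmem _ hx'
    simp only [Sigma.mk.injEq, heq_eq_eq] at he
    obtain ⟨rfl, he⟩ := he
    have hq : q = q' := by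
      have : q ∈ insert q' B' := he ▸ mem_insert_self q B
      exact (mem_insert.1 this).resolve_right (hnot _ _ h2' q h3)
    subst hq
    have hB : B = B' := by
      rw [← erase_insert (hnot S B h2 q h3), he, erase_insert (hnot S B' h2' q h3)]
    subst hB
    rfl
  · intro x hx
    obtain ⟨h1, h2, h3, h4⟩ := hmem x hx
    obtain ⟨k1, k2, -⟩ := h _ h1 _ h2 _ h3 h4
    exact mem_sigma.2 ⟨mem_powerset.2 k1, mem_powerset.2 k2⟩
  · intro x hx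
    obtain ⟨h1, h2, h3, h4⟩ := hmem x hx
    obtain ⟨-, -, k3⟩ := h _ h1 _ h2 _ h3 h4
    simp only [ind, k3, if_true]
    rw [prod_insert (hnot _ _ h2 _ h3)]
    exact le_of_eq (by ring)
  · intro y _
    exact mul_nonneg
      (mul_nonneg (prod_nonneg fun p _ => ha p) (prod_nonneg fun p _ => hb p)) (ind_nonneg _)

theorem nice_insert {Sg B : Finset ℕ} {tp j0 q : ℕ} (h : NiceT Sg B tp j0)
    (hS : ∀ l ∈ Sg, lev l ≤ tp) (hB : ∀ l ∈ B, lev l ≤ tp) (hq : tp < lev q) (he : eps q = 1)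
    (hs : ∑ l ∈ Sg ∪ B, eps l = 1) : NiceS Sg (insert q B) tp j0 := by
  have hn : q ∉ Sg ∪ B := fun hh =>
    (mem_union.1 hh).elim (fun x => (hS q x).not_gt hq) fun x => (hB q x).not_gt hq
  refine ⟨⟨fun i hi ε => ?_, h.low, h.sml, fun W hW hne => ?_, ?_⟩,
    ⟨q, mem_insert_self _ _, hq, he, fun l hl hlt => ?_⟩, ?_⟩
  · rw [filter_insert, if_neg fun hh => by omega]
    exact h.cnt i hi ε
  · obtain ⟨l, hl, h1⟩ := h.det W hW hne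
    exact ⟨l, mem_insert_of_mem hl, h1⟩
  · rw [union_insert, filter_insert, if_neg (by omega)]
    exact h.ev
  · exact (mem_insert.1 hl).resolve_right fun x => (hB l x).not_gt hlt
  · rw [union_insert, sum_insert hn, he, hs]
    rfl

theorem prod_le {A : Finset ℕ} {X : ℕ} (hX : 1 ≤ X) (hA : ∀ p ∈ A, p.Prime)
    (h : ∑ l ∈ A, Real.log l ≤ Real.log X / 6) : (∏ p ∈ A, p) ^ 6 ≤ X := by
  have h0 : ∀ p ∈ A, (p : ℝ) ≠ 0 := fun p hp => Nat.cast_ne_zero.2 (hA p hp).ne_zero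
  have h1 : (0 : ℝ) < (∏ p ∈ A, (p : ℝ)) ^ 6 :=
    pow_pos (prod_pos fun p hp => Nat.cast_pos.2 (hA p hp).pos) 6
  have h2 : (∏ p ∈ A, (p : ℝ)) ^ 6 ≤ X := by
    rw [← Real.log_le_log_iff h1 (Nat.cast_pos.2 hX), Real.log_pow, Real.log_prod h0]
    push_cast
    linarith
  rw [← Nat.cast_prod, ← Nat.cast_pow, Nat.cast_le] at h2
  exact h2

theorem mem_OP {X p : ℕ} : p ∈ OP X ↔ p ≤ X ∧ p.Prime ∧ p ≠ 2 := by
  simp [OP]

theorem step {X j0 : ℕ} (hX : 1 ≤ X) (hl : 1 ≤ ll X) {Sg B : Finset ℕ} (hS : Sg ⊆ PP X j0)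
    (hB : B ⊆ PP X j0 \ Sg) {q : ℕ} (hq : q ∈ TQ X j0)
    (h : NiceT Sg B (tpX X j0) j0 ∧ ∑ l ∈ Sg ∪ B, eps l = 1 ∧ (B.card : ℝ) ≤ 200 * ll X ∧
      ∑ l ∈ Sg ∪ B, Real.log l ≤ Real.log X / 6) :
    Sg ⊆ OP X ∧ insert q B ⊆ OP X \ Sg ∧ NiceS Sg (insert q B) (tpX X j0) j0 ∧
      (insert q B).card ≤ mX X ∧ ((∏ p ∈ Sg, p) * ∏ p ∈ insert q B, p) ^ 3 ≤ X := by
  obtain ⟨h1, h2, h3, h4⟩ := h
  obtain ⟨q1, q2, q3, q4⟩ := mem_filter.1 hq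
  have hP : ∀ p ∈ Sg ∪ B, p.Prime ∧ p ≠ 2 ∧ lev p ≤ tpX X j0 := fun p hp => by
    have : p ∈ PP X j0 := (mem_union.1 hp).elim (fun x => hS x) fun x => (mem_sdiff.1 (hB x)).1
    obtain ⟨a1, a2⟩ := mem_filter.1 this
    exact ⟨(mem_OP.1 a1).2.1, (mem_OP.1 a1).2.2, a2⟩
  have hd := prod_le hX (fun p hp => (hP p hp).1) h4
  have hd0 : 0 < ∏ p ∈ Sg ∪ B, p := prod_pos fun p hp => (hP p hp).1.pos
  have hO : ∀ p ∈ Sg ∪ B, p ∈ OP X := fun p hp => mem_OP.2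
    ⟨((Nat.le_of_dvd hd0 (dvd_prod_of_mem (fun p => p) hp)).trans
      (Nat.le_self_pow (by norm_num) _)).trans hd, (hP p hp).1, (hP p hp).2.1⟩
  have hn : q ∉ Sg ∪ B := fun hh => (hP q hh).2.2.not_gt q2
  have hdis : Disjoint Sg B := disjoint_left.2 fun p hp hp' => (mem_sdiff.1 (hB hp')).2 hp
  refine ⟨fun p hp => hO p (mem_union_left _ hp), fun p hp => ?_,
    nice_insert h1 (fun l hl => (hP l (mem_union_left _ hl)).2.2)
      (fun l hl => (hP l (mem_union_right _ hl)).2.2) q2 q3 h2, ?_, ?_⟩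
  · rcases mem_insert.1 hp with rfl | hp
    · exact mem_sdiff.2 ⟨q1, fun x => hn (mem_union_left _ x)⟩
    · exact mem_sdiff.2 ⟨hO p (mem_union_right _ hp), (mem_sdiff.1 (hB hp)).2⟩
  · refine Nat.le_floor ?_
    have : ((insert q B).card : ℝ) ≤ B.card + 1 := by exact_mod_cast card_insert_le q B
    linarith
  · rw [prod_insert fun x => hn (mem_union_right _ x), mul_left_comm, ← prod_union hdis]
    refine (Nat.pow_le_pow_iff_left two_ne_zero).1 ?_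
    rw [← pow_mul, mul_pow, sq]
    exact Nat.mul_le_mul q4 hd

theorem ws_nonneg (X j0 p : ℕ) : 0 ≤ ws X j0 p / p := by
  refine div_nonneg ?_ (Nat.cast_nonneg p)
  unfold ws
  split_ifs
  · positivity
  · exact le_rfl

theorem wb_nonneg {X : ℕ} (h : s1 X ≤ s2 X) (p : ℕ) : 0 ≤ wb X p / p := by
  refine div_nonneg ?_ (Nat.cast_nonneg p)
  unfold wb
  split_ifs with hp
  · have : (1 : ℝ) ≤ p := by exact_mod_cast Nat.one_le_of_lt hp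
    exact sub_nonneg.2 (Real.rpow_le_rpow_of_exponent_le this (neg_le_neg h))
  · exact le_rfl

end MAIN

theorem rowMAIN : OfMAIN := by
  intro hP hA hB hC j0 hj
  obtain ⟨c, hc, hC⟩ := hC j0
  refine ⟨c / 10, by positivity, ?_⟩
  filter_upwards [hP j0 1, hB j0, hC, eventually_ge_atTop 1] with X h1 h2 h3 hX
  have a1 := hA _ _ _ _ _ _ _ _ h2 hj
  have ha := MAIN.ws_nonneg X j0
  have hb := MAIN.wb_nonneg h1.2.2.1
  have a2 := MAIN.ps_insert (PP X j0) (OP X) (TQ X j0) ha hb _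
    (fun Sg B => NiceS Sg B (tpX X j0) j0 ∧ B.card ≤ mX X ∧ ((∏ p ∈ Sg, p) * ∏ p ∈ B, p) ^ 3 ≤ X)
    (fun q hq hq' => (mem_filter.1 hq').2.not_gt (mem_filter.1 hq).2.1)
    fun Sg hS B hB q hq h => MAIN.step hX h1.1 hS hB hq h
  have a3 := le_mul_of_one_le_right (MAIN.ps_nonneg (PP X j0) ha hb fun Sg B =>
    NiceT Sg B (tpX X j0) j0 ∧ ∑ l ∈ Sg ∪ B, eps l = 1 ∧ (B.card : ℝ) ≤ 200 * ll X ∧
      ∑ l ∈ Sg ∪ B, Real.log l ≤ Real.log X / 6) h3.2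
  have a4 := h3.1
  linarith

end Pool.Agent.MP_1246c0_nt.H12
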