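import Pool.Agent.MP_1246c0_nt.H25.SpecN

/-! Typical integers give typical configurations. -/

namespace Pool.Agent.MP_1246c0_nt.H25

open Finset Matrix Filter Function Pool.Agent.MP_db5b97_nt.H85
open Pool.Agent.MP_1246c0_nt.H12

namespace NIC

variable {Sg : Finset ℕ} {m : ℕ} {p : Fin m → ℕ}

theorem inr_mem (i : Fin m) : Sum.inr i ∈ BB Sg m := by simp [BB]

theorem inl_notMem (s : Sg) : Sum.inl s ∉ BB Sg m := by simp [BB]

theorem img_BB : (BB Sg m).image (prs Sg p) = univ.image p := by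
  ext x
  simp [BB, prs]

theorem img_univ : univ.image (prs Sg p) = Sg ∪ univ.image p := by
  ext x
  simp [prs]

theorem img_compl : (BB Sg m)ᶜ.image (prs Sg p) = Sg := by
  ext x
  simp [BB, prs]

theorem pf {ι : Type} [Fintype ι] [DecidableEq ι] {pr : ι → ℕ} {P : ℕ} {i1 : ι}
    (h : Lb pr P i1) : (dd pr P).primeFactors = insert P (univ.image pr) := by
  have hP : P ∉ univ.image pr := by simpa using h.ne
  have e : dd pr P = ∏ l ∈ insert P (univ.image pr), l := by
    rw [prod_insert hP, prod_image fun a _ b _ e => h.inj e]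
    rfl
  rw [e]
  refine Nat.primeFactors_prod fun l hl => ?_
  rcases mem_insert.1 hl with rfl | hl
  · exact h.prime
  · obtain ⟨i, -, rfl⟩ := mem_image.1 hl
    exact (h.odd i).1

theorem five (hd : SDEC) {l : ℕ} (h1 : l % 2 = 1) (h2 : 1 < l) :
    lev l = 0 ∧ eps l = 0 ↔ l % 8 = 5 := ((hd.cls l h1 h2).2.2 0).2.2.1

theorem five' (hd : SDEC) {l : ℕ} (h : l % 8 = 5) : lev l = 0 ∧ eps l = 0 :=
  (five hd (by omega) (by omega)).2 h

theorem now {P n : ℕ} (h : P % 8 = 5) : ¬P % 2 ^ (n + 3) = 1 := fun e => by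
  have h1 : P % 2 ^ (n + 3) % 8 = P % 8 :=
    Nat.mod_mod_of_dvd _ ⟨2 ^ n, by rw [pow_add, mul_comm]; rfl⟩
  rw [e, h] at h1
  omega

variable {X P : ℕ} {i1 : Sg}

theorem small (h : Vd X Sg m i1 p P) {s : ℕ} (hs : s ∈ Sg) : s ≤ YY X :=
  Nat.lt_succ_iff.1 (mem_range.1 (mem_filter.1
    (mem_powerset.1 (mem_filter.1 h.sm).1 hs)).1)

theorem sm_eq (h : Vd X Sg m i1 p P) : sm X (dd (prs Sg p) P) = Sg := by
  rw [sm, pf h.lb, img_univ]
  ext x
  simp only [mem_filter, mem_insert, mem_union, mem_image, mem_univ, true_and]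
  refine ⟨?_, fun hx => ⟨.inr (.inl hx), small h hx⟩⟩
  rintro ⟨rfl | hx | ⟨i, rfl⟩, h1⟩
  · exact absurd h.bP (not_lt.2 h1)
  · exact hx
  · exact absurd (h.big i) (not_lt.2 h1)

theorem bg_eq (h : Vd X Sg m i1 p P) : bg X (dd (prs Sg p) P) = insert P (univ.image p) := by
  rw [bg, pf h.lb, img_univ]
  ext x
  simp only [mem_filter, mem_insert, mem_union, mem_image, mem_univ, true_and]
  constructor
  · rintro ⟨rfl | hx | hx, h1⟩
    · exact .inl rfl
    · exact absurd h1 (not_lt.2 (small h hx))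
    · exact .inr hx
  · rintro (rfl | ⟨i, rfl⟩)
    · exact ⟨.inl rfl, h.bP⟩
    · exact ⟨.inr (.inr ⟨i, rfl⟩), h.big i⟩

theorem nx (hd : SDEC) (hq : SQR) (S : Sy) (π : Pa) (h : Vd X Sg m i1 p P)
    (hU : NdU X π.j0 π.K π.j (S.D π.nT) (dd (prs Sg p) P))
    (hL : NdL X π.j0 π.n (dd (prs Sg p) P)) : NX S π X Sg m i1 p P := by
  have hi := h.lb.inj
  have e1 := sm_eq h
  have e2 := bg_eq h
  have e3 := pf h.lb
  have ne : ∀ (i : Fin m) (s : Sg), p i ≠ s := fun i s e =>
    absurd (h.big i) (not_lt.2 (e ▸ small h s.2))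
  have cf : ∀ (s : Finset (Sg ⊕ Fin m)) (Q : ℕ → Prop) [DecidablePred Q],
      (s.filter fun l => Q (prs Sg p l)).card = ((s.image (prs Sg p)).filter Q).card :=
    fun s Q _ => by rw [filter_image, card_image_of_injective _ hi]
  have sy : ∀ (i : Fin m) (s : Sg), eps (p i) * eps s = 0 →
      Sm0 (prs Sg p) P (.inl s) (.inr i) = Sm0 (prs Sg p) P (.inr i) (.inl s) := fun i s he => by
    have h1 : lg (p i) s + lg s (p i) = eps (p i) * eps s :=
      hq.rcp _ _ (h.lb.odd (.inr i)) (h.lb.odd (.inl s)) (ne i s)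
    have h3 : ∀ x y : F2, x + y = 0 → y = x := by decide
    exact (if_neg (ne i s).symm).trans ((h3 _ _ (h1.trans he)).trans (if_neg (ne i s)).symm)
  have h5 := five' hd h.lb.five
  have hP := five' hd h.lb.md
  refine ⟨⟨?_, fun a ha ε => ?_, ?_, ?_, fun w hw h0 => ?_⟩, ⟨inl_notMem i1, h5.1, h5.2, ?_⟩, ?_,
    fun i hl => hU.unit _ (e3 ▸ mem_insert_of_mem (mem_image_of_mem _ (mem_univ i))) hl, ?_, ?_⟩
  · rintro (s | i) hb (s' | i') h' he
    · exact absurd hb (inl_notMem s)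
    · exact absurd hb (inl_notMem s)
    · exact sy i s' (by rw [show eps (p i) = 0 from he, zero_mul])
    · exact absurd (inr_mem i') h'
  · have h1 := hU.cnt a ha ε
    have h2 := hL.cnt a ha ε
    rw [cf _ fun l => lev l = a ∧ eps l = ε, img_BB]
    rw [e2] at h1 h2
    refine ⟨?_, (card_le_card (filter_subset_filter _ (subset_insert _ _))).trans h1⟩
    rw [filter_insert] at h2
    split_ifs at h2
    · exact Nat.lt_succ_iff.1 (h2.trans_le (card_insert_le _ _))
    · exact h2.le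
  · rintro (s | i) hb
    exacts [hU.low s (e1.symm ▸ s.2), absurd (inr_mem i) hb]
  · rw [← card_image_of_injective _ hi, img_compl]
    exact e1 ▸ hU.sml
  · have h1 : ∀ x : F2, x = 0 ∨ x = 1 := by decide
    obtain ⟨l₀, hl₀⟩ := Function.ne_iff.1 h0
    have sub : (univ.filter fun l => w l = 1).image (prs Sg p) ⊆ Sg := image_subset_iff.2 (by
      rintro (s | i) hx
      · exact s.2
      · exact absurd ((hw _ (inr_mem i)).symm.trans (mem_filter.1 hx).2) zero_ne_one)
    obtain ⟨l, hl, h2, h3, h4⟩ := hL.det ((univ.filter fun l => w l = 1).image (prs Sg p))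
      (e1.symm ▸ sub) ⟨_, mem_image_of_mem _ (mem_filter.2 ⟨mem_univ l₀, (h1 _).resolve_left hl₀⟩)⟩
      ((card_le_card sub).trans (mem_filter.1 h.sm).2)
    rw [e2] at hl
    rcases mem_insert.1 hl with rfl | hl
    · omega
    obtain ⟨i, -, rfl⟩ := mem_image.1 hl
    refine ⟨Sum.inr i, inr_mem i, h2, h3, ?_⟩
    rw [← h4, sum_image fun a _ b _ e => hi e, sum_filter]
    refine sum_congr rfl ?_
    rintro (s | j) -
    · rcases h1 (w (Sum.inl s)) with hx | hx
      · rw [hx, mul_zero, if_neg zero_ne_one]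
      · rw [hx, mul_one, if_pos rfl]
        exact if_neg (ne i s)
    · rw [hw _ (inr_mem j), mul_zero, if_neg zero_ne_one]
  · rintro (s | i) hb
    · exact absurd hb (inl_notMem s)
    · exact (sy i i1 (by rw [show eps i1 = 0 from h5.2, mul_zero])).symm
  · rw [cf _ fun l => tpX X π.j0 - 2 ≤ lev l]
    exact (card_le_card (filter_subset_filter _ (e3 ▸ subset_insert _ _))).trans hU.top
  · have h1 := hL.j1
    rw [e3, filter_insert, if_neg fun e => now h.lb.md e.2.2] at h1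
    exact h1.trans_eq (@cf univ (T1 X π.n) fun _ => Classical.propDecidable _).symm
  · have h1 := hL.j2
    rw [e3, filter_insert, if_neg fun e => now h.lb.md e.2] at h1
    exact h1.trans_eq (@cf univ (T2 X π.n) fun _ => Classical.propDecidable _).symm

end NIC

open NIC in
theorem rowNIC : OfNIC := by
  intro hd hq
  refine ⟨fun S π X Sg m i1 p P h hU hL => nx hd hq S π h hU hL,
    fun X j0 K j n n' D d ho hU hL => ⟨hL.five, ?_, hU.few, hU.big⟩,
    fun ι _ _ S π X B i1 pr pr' S0 S0' h hS hN => ?_⟩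
  · obtain ⟨l, hl⟩ := card_pos.1 ((Nat.zero_le _).trans_lt (hL.cnt 0 (Nat.zero_le _) 0))
    obtain ⟨h1, h2⟩ := mem_filter.1 hl
    have h3 := Nat.mem_primeFactors.1 (mem_filter.1 h1).1
    exact ⟨l, h1, (five hd (Nat.odd_iff.1 (ho.of_dvd_nat h3.2.1)) h3.1.one_lt).1 h2⟩
  have e1 : (fun i => lev (pr i)) = fun i => lev (pr' i) := funext fun i => (h i).1
  have e2 : (fun i => eps (pr i)) = fun i => eps (pr' i) := funext fun i => (h i).2.1
  have e3 : Ja X π.n pr = Ja X π.n pr' := by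
    ext i
    simp only [Ja, mem_filter, (h i).2.2.1]
  have e4 : Jb X π.n pr = Jb X π.n pr' := by
    ext i
    simp only [Jb, mem_filter, (h i).2.2.2.1]
  obtain ⟨hc, hf, ht, hu, h1, h2⟩ := hN
  rw [e1, e2] at hc hf
  refine ⟨⟨fun l hl l' hl' he => ?_, hc.cnt, hc.low, hc.sml, fun w hw h0 => ?_⟩,
    ⟨hf.nb, hf.lv0, hf.e0, fun l hl => ?_⟩, ?_,
    fun i hi hj => hu i ((h i).1.symm ▸ hi) ((h i).2.2.2.2.2 hj), e3 ▸ h1, e4 ▸ h2⟩
  · rw [hS l' l fun e => hl' e.1, hS l l' fun e => hl' e.2]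
    exact hc.cross l hl l' hl' he
  · obtain ⟨l, hl, h3, h4, h5⟩ := hc.det w hw h0
    refine ⟨l, hl, h3, h4, h5 ▸ sum_congr rfl fun l' _ => ?_⟩
    by_cases hb : l' ∈ B
    · rw [hw l' hb, mul_zero, mul_zero]
    · rw [hS l l' fun e => hb e.2]
  · rw [hS l i1 fun e => hf.nb e.2, hS i1 l fun e => hf.nb e.1]
    exact hf.sy l hl
  · refine le_of_eq_of_le (congrArg card (filter_congr fun i _ => ?_)) ht
    rw [(h i).1]

end Pool.Agent.MP_1246c0_nt.H25
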